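import Mathlib

/-!
# Superforms on analytifications and on tropicalizations (MP_90358a_ag): definitions

`Ber K A` : the Berkovich spectrum of a `K`-algebra (multiplicative seminorms extending the absolute
value of `K`, topology of pointwise convergence).

`LogSpace X Φ` : a topological space `X` with a family `Φ` of real functions `lf f`, each continuous on
an open set `dom f`.  Examples: `X = M(A)`, `Φ = A`, `lf a = log |a|` on `dom a = {|a| ≠ 0}`;
`X = Trop(Y)`, `Φ` = characters of the torus; `X = X^an` for a scheme, `Φ` = all pairs `(U, f)`,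
`U` open, `f` a function on `U`.

A form of type `(p,q)` on a `LogSpace` is given locally near `z` by finitely many `f_1, ..., f_n` in `Φ`
defined at `z` and a smooth Lagerberg superform on `ℝ^n`, pulled back by `(lf f_1, ..., lf f_n)`; two of
them are equal at `z` if, after adding finitely many functions `f` (common refinement), the difference
vanishes on the image in `ℝ^u` of a neighbourhood of `z`, that is at every point of this image on all
vectors tangent to convex subsets of this image (definition of Chambert-Loir and Ducros).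
-/

open scoped ContDiff Topology

namespace Pool.Agent.TD

/-- A point of the Berkovich spectrum `M(A)`: a multiplicative ultrametric seminorm on `A` which
extends the absolute value of `K`. -/
structure Ber (K A : Type) [NormedField K] [CommRing A] [Algebra K A] where
  v : A → ℝ
  nonneg : ∀ a, 0 ≤ v a
  one : v 1 = 1
  mul : ∀ a b, v (a * b) = v a * v b
  add : ∀ a b, v (a + b) ≤ max (v a) (v b)
  ext : ∀ c : K, v (algebraMap K A c) = ‖c‖

/-- The topology of pointwise convergence on `M(A)`. -/
instance (K A : Type) [NormedField K] [CommRing A] [Algebra K A] : TopologicalSpace (Ber K A) :=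
  TopologicalSpace.induced Ber.v Pi.topologicalSpace

/-- A topological space with a family of partially defined continuous real functions. -/
structure LogSpace (X Φ : Type) [TopologicalSpace X] where
  dom : Φ → Set X
  lf : Φ → X → ℝ
  isOpen_dom : ∀ f, IsOpen (dom f)
  cont : ∀ f, ContinuousOn (lf f) (dom f)

/-- The functions `log |a|` on `M(A)`. -/
noncomputable def berLS (K A : Type) [NormedField K] [CommRing A] [Algebra K A] :
    LogSpace (Ber K A) A where
  dom a := {z | z.v a ≠ 0}
  lf a z := Real.log (z.v a)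
  isOpen_dom a := by
    have h : Continuous (fun z : Ber K A => z.v a) :=
      (continuous_apply a).comp continuous_induced_dom
    exact isOpen_ne_fun h continuous_const
  cont a := by
    have h : Continuous (fun z : Ber K A => z.v a) :=
      (continuous_apply a).comp continuous_induced_dom
    exact ContinuousOn.log h.continuousOn (fun z hz => hz)

/-- Superforms of type `(p,q)` on a normed space `V` (no smoothness): the coefficients of the
`q` differentials `d''` are the alternating `p`-forms (the differentials `d'`). -/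
abbrev SForm (V : Type) [NormedAddCommGroup V] [NormedSpace ℝ V] (p q : ℕ) : Type :=
  V → V [⋀^Fin q]→L[ℝ] (V [⋀^Fin p]→L[ℝ] ℝ)

/-- Raw forms of type `(p,q)` on `ℝ^Φ`: `θ x w v` is the value at the point `x` on the `q` vectors
`w` (for `d''`) and the `p` vectors `v` (for `d'`). -/
abbrev Raw (Φ : Type) (p q : ℕ) : Type :=
  (Φ → ℝ) → (Fin q → Φ → ℝ) → (Fin p → Φ → ℝ) → ℝ

/-- Restriction of a vector of `ℝ^Φ` to `ℝ^s`. -/
def rs {Φ : Type} (s : Finset Φ) (x : Φ → ℝ) : s → ℝ := fun f => x f

/-- `θ` is the pull-back to `ℝ^Φ` of a smooth superform of type `(p,q)` on `ℝ^s`. -/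
def IsSF {Φ : Type} {p q : ℕ} (s : Finset Φ) (θ : Raw Φ p q) : Prop :=
  ∃ α : SForm (s → ℝ) p q, ContDiff ℝ ∞ α ∧
    ∀ x w v, θ x w v = α (rs s x) (fun i => rs s (w i)) (fun j => rs s (v j))

/-- `θ` vanishes on the subset `P` of `ℝ^u`: at every point of every convex subset `σ` of `P`, on all
vectors tangent to `σ`. -/
def VanOn {Φ : Type} {p q : ℕ} (u : Finset Φ) (θ : Raw Φ p q) (P : Set (u → ℝ)) : Prop :=
  ∀ σ : Set (u → ℝ), Convex ℝ σ → σ ⊆ P → ∀ (x : Φ → ℝ) (w : Fin q → Φ → ℝ) (v : Fin p → Φ → ℝ),
    rs u x ∈ σ → (∀ i, rs u (w i) ∈ vectorSpan ℝ σ) → (∀ j, rs u (v j) ∈ vectorSpan ℝ σ) →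
      θ x w v = 0

/-- The differential `d''`. -/
noncomputable def dd {Φ : Type} {p q : ℕ} (θ : Raw Φ p q) : Raw Φ p (q + 1) := fun x w v =>
  ∑ i : Fin (q + 1), (-1 : ℝ) ^ (i : ℕ) *
    deriv (fun t : ℝ => θ (x + t • w i) (fun j => w (i.succAbove j)) v) 0

/-- Left multiplication by `d' lf f`. -/
def wdg {Φ : Type} {p q : ℕ} (f : Φ) (θ : Raw Φ p q) : Raw Φ (p + 1) q := fun x w v =>
  ∑ j : Fin (p + 1), (-1 : ℝ) ^ (j : ℕ) * v j f * θ x w (fun i => v (j.succAbove i))

namespace LogSpace

variable {X Φ : Type} [TopologicalSpace X] (L : LogSpace X Φ)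

/-- The tropicalization map `X → ℝ^u`. -/
def trop (u : Finset Φ) (z : X) : u → ℝ := fun f => L.lf f z

/-- `θ` defines a germ of form at `z`. -/
def SFat {p q : ℕ} (z : X) (θ : Raw Φ p q) : Prop :=
  ∃ s : Finset Φ, IsSF s θ ∧ ∀ f ∈ s, z ∈ L.dom f

/-- `θ` defines the zero germ at `z`. -/
def Van {p q : ℕ} (z : X) (θ : Raw Φ p q) : Prop :=
  ∃ u : Finset Φ, IsSF u θ ∧ ∃ V ∈ 𝓝 z, (∀ f ∈ u, V ⊆ L.dom f) ∧ VanOn u θ (L.trop u '' V)

end LogSpace

end Pool.Agent.TD
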