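import Pool.Agent.TD.A1

/-! Block A, part 2: operations on stalks and global sections. -/

open scoped ContDiff Topology

namespace Pool.Agent.TD

/-! `dlg`, `wdg1`, `mul0` are bilinear. -/

section lin
variable {Φ : Type} {p q : ℕ}

lemma wdg1_add_left (η η' : Raw Φ 1 0) (θ : Raw Φ p q) :
    wdg1 (η + η') θ = wdg1 η θ + wdg1 η' θ := by
  funext x w v
  simp only [wdg1, Pi.add_apply]
  rw [← Finset.sum_add_distrib]
  refine Finset.sum_congr rfl fun j _ => ?_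
  ring

lemma wdg1_smul_left (c : ℝ) (η : Raw Φ 1 0) (θ : Raw Φ p q) :
    wdg1 (c • η) θ = c • wdg1 η θ := by
  funext x w v
  simp only [wdg1, Pi.smul_apply, smul_eq_mul]
  rw [Finset.mul_sum]
  refine Finset.sum_congr rfl fun j _ => ?_
  ring

lemma wdg1_add_right (η : Raw Φ 1 0) (θ θ' : Raw Φ p q) :
    wdg1 η (θ + θ') = wdg1 η θ + wdg1 η θ' := by
  funext x w v
  simp only [wdg1, Pi.add_apply]
  rw [← Finset.sum_add_distrib]
  refine Finset.sum_congr rfl fun j _ => ?_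
  ring

lemma wdg1_smul_right (c : ℝ) (η : Raw Φ 1 0) (θ : Raw Φ p q) :
    wdg1 η (c • θ) = c • wdg1 η θ := by
  funext x w v
  simp only [wdg1, Pi.smul_apply, smul_eq_mul]
  rw [Finset.mul_sum]
  refine Finset.sum_congr rfl fun j _ => ?_
  ring

lemma mul0_add_left (g g' : Raw Φ 0 0) (θ : Raw Φ p q) :
    mul0 (g + g') θ = mul0 g θ + mul0 g' θ := by
  funext x w v
  simp only [mul0, Pi.add_apply]; ring

lemma mul0_smul_left (c : ℝ) (g : Raw Φ 0 0) (θ : Raw Φ p q) :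
    mul0 (c • g) θ = c • mul0 g θ := by
  funext x w v
  simp only [mul0, Pi.smul_apply, smul_eq_mul]; ring

lemma mul0_add_right (g : Raw Φ 0 0) (θ θ' : Raw Φ p q) :
    mul0 g (θ + θ') = mul0 g θ + mul0 g θ' := by
  funext x w v
  simp only [mul0, Pi.add_apply]; ring

lemma mul0_smul_right (c : ℝ) (g : Raw Φ 0 0) (θ : Raw Φ p q) :
    mul0 g (c • θ) = c • mul0 g θ := by
  funext x w v
  simp only [mul0, Pi.smul_apply, smul_eq_mul]; ring

lemma pullR_add {Φ' : Type} (φ : Φ' → Φ) (θ θ' : Raw Φ' p q) :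
    pullR φ (θ + θ') = pullR φ θ + pullR φ θ' := rfl

lemma pullR_smul {Φ' : Type} (φ : Φ' → Φ) (c : ℝ) (θ : Raw Φ' p q) :
    pullR φ (c • θ) = c • pullR φ θ := rfl

end lin

namespace LogSpace

variable {X Φ : Type} [TopologicalSpace X] (L : LogSpace X Φ) {p q : ℕ}

/-- Linear maps on stalks, from maps on raw forms. -/
noncomputable def stMap {p q p' q' : ℕ} (z : X) (F : Raw Φ p q → Raw Φ p' q')
    (h1 : ∀ θ, L.SFat z θ → L.SFat z (F θ))
    (h2 : ∀ θ η, L.SFat z θ → L.SFat z η → F (θ + η) = F θ + F η)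
    (h3 : ∀ (c : ℝ) θ, L.SFat z θ → F (c • θ) = c • F θ)
    (h4 : ∀ θ, L.Van z θ → L.Van z (F θ)) : L.Stalk p q z →ₗ[ℝ] L.Stalk p' q' z :=
  L.stLift z
    ({ toFun := fun θ => L.germ (F θ.1) (h1 _ θ.2)
       map_add' := fun θ η => by
          rw [← L.germ_add]; exact L.germ_congr (h2 _ _ θ.2 η.2) _ _
       map_smul' := fun c θ => by
          rw [RingHom.id_apply, ← L.germ_smul]; exact L.germ_congr (h3 c _ θ.2) _ _ } :
      L.SFm p q z →ₗ[ℝ] L.Stalk p' q' z)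
    (fun _ hθ => (L.germ_eq_zero _).2 (h4 _ hθ))

lemma stMap_germ {p q p' q' : ℕ} {z : X} {F : Raw Φ p q → Raw Φ p' q'} {h1 h2 h3 h4}
    {θ : Raw Φ p q} (h : L.SFat z θ) :
    L.stMap (p := p) (q := q) (p' := p') (q' := q') z F h1 h2 h3 h4 (L.germ θ h) =
      L.germ (F θ) (h1 _ h) := rfl

/-- `d''` on stalks. -/
noncomputable def ddS (p q : ℕ) (z : X) : L.Stalk p q z →ₗ[ℝ] L.Stalk p (q + 1) z :=
  L.stMap z dd (fun _ h => SFat.dd L h)
    (fun θ η h k => by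
      obtain ⟨s, hs, ht, -⟩ := SFat.common L h k
      exact dd_add hs ht)
    (fun c θ h => by
      obtain ⟨s, hs, -⟩ := h
      exact dd_smul c hs)
    (fun _ h => Van.dd L h)

lemma ddS_germ {z : X} {θ : Raw Φ p q} (h : L.SFat z θ) :
    L.ddS p q z (L.germ θ h) = L.germ (dd θ) (SFat.dd L h) := rfl

/-- Bilinear maps on stalks. -/
noncomputable def stMap2 {p1 q1 p2 q2 p' q' : ℕ} (z : X)
    (F : Raw Φ p1 q1 → Raw Φ p2 q2 → Raw Φ p' q')
    (h1 : ∀ η θ, L.SFat z η → L.SFat z θ → L.SFat z (F η θ))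
    (a1 : ∀ η η' θ, F (η + η') θ = F η θ + F η' θ) (a2 : ∀ (c : ℝ) η θ, F (c • η) θ = c • F η θ)
    (a3 : ∀ η θ θ', F η (θ + θ') = F η θ + F η θ') (a4 : ∀ (c : ℝ) η θ, F η (c • θ) = c • F η θ)
    (h4 : ∀ η θ, L.Van z η → L.SFat z θ → L.Van z (F η θ))
    (h5 : ∀ η θ, L.SFat z η → L.Van z θ → L.Van z (F η θ)) :
    L.Stalk p1 q1 z →ₗ[ℝ] L.Stalk p2 q2 z →ₗ[ℝ] L.Stalk p' q' z :=
  L.stLift z
    ({ toFun := fun η => L.stMap z (F η.1) (fun θ h => h1 _ _ η.2 h) (fun θ θ' _ _ => a3 _ _ _)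
          (fun c _ _ => a4 c _ _) (fun θ h => h5 _ _ η.2 h)
       map_add' := fun η η' => by
          refine LinearMap.ext fun c => ?_
          obtain ⟨θ, hθ, rfl⟩ := L.exists_germ c
          rw [LinearMap.add_apply, stMap_germ, stMap_germ, stMap_germ, ← L.germ_add]
          exact L.germ_congr (a1 _ _ _) _ _
       map_smul' := fun r η => by
          refine LinearMap.ext fun c => ?_
          obtain ⟨θ, hθ, rfl⟩ := L.exists_germ c
          rw [RingHom.id_apply, LinearMap.smul_apply, stMap_germ, stMap_germ, ← L.germ_smul]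
          exact L.germ_congr (a2 _ _ _) _ _ } :
      L.SFm p1 q1 z →ₗ[ℝ] L.Stalk p2 q2 z →ₗ[ℝ] L.Stalk p' q' z)
    (fun η hη => by
      refine LinearMap.ext fun c => ?_
      obtain ⟨θ, hθ, rfl⟩ := L.exists_germ c
      exact (L.germ_eq_zero (h1 _ _ η.2 hθ)).2 (h4 _ _ hη hθ))

lemma stMap2_germ {p1 q1 p2 q2 p' q' : ℕ} {z : X} {F : Raw Φ p1 q1 → Raw Φ p2 q2 → Raw Φ p' q'}
    {h1 a1 a2 a3 a4 h4 h5} {η : Raw Φ p1 q1} {θ : Raw Φ p2 q2} (k : L.SFat z η)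
    (h : L.SFat z θ) :
    L.stMap2 (p1 := p1) (q1 := q1) (p2 := p2) (q2 := q2) (p' := p') (q' := q') z F h1 a1 a2 a3 a4
      h4 h5 (L.germ η k) (L.germ θ h) = L.germ (F η θ) (h1 _ _ k h) := rfl

/-- Exterior product with a `(1,0)`-germ. -/
noncomputable def wdS (p q : ℕ) (z : X) :
    L.Stalk 1 0 z →ₗ[ℝ] L.Stalk p q z →ₗ[ℝ] L.Stalk (p + 1) q z :=
  L.stMap2 z wdg1 (fun _ _ k h => SFat.wdg1 L k h) wdg1_add_left wdg1_smul_left wdg1_add_right
    wdg1_smul_right (fun _ _ k h => Van.wdg1_left L k h) (fun _ _ k h => Van.wdg1_right L k h)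

lemma wdS_germ {z : X} {η : Raw Φ 1 0} {θ : Raw Φ p q} (k : L.SFat z η) (h : L.SFat z θ) :
    L.wdS p q z (L.germ η k) (L.germ θ h) = L.germ (wdg1 η θ) (SFat.wdg1 L k h) := rfl

/-- Product with a `(0,0)`-germ. -/
noncomputable def muS (p q : ℕ) (z : X) :
    L.Stalk 0 0 z →ₗ[ℝ] L.Stalk p q z →ₗ[ℝ] L.Stalk p q z :=
  L.stMap2 z mul0 (fun _ _ k h => SFat.mul0 L k h) mul0_add_left mul0_smul_left mul0_add_right
    mul0_smul_right (fun _ _ k h => Van.mul0_left L k h) (fun _ _ k h => Van.mul0_right L k h)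

lemma muS_germ {z : X} {g : Raw Φ 0 0} {θ : Raw Φ p q} (k : L.SFat z g) (h : L.SFat z θ) :
    L.muS p q z (L.germ g k) (L.germ θ h) = L.germ (mul0 g θ) (SFat.mul0 L k h) := rfl

/-- The germ of `d' lf f`. -/
noncomputable def dlS {z : X} (f : Φ) (h : z ∈ L.dom f) : L.Stalk 1 0 z :=
  L.germ (dlg f) ⟨{f}, isSF_dlg (Finset.mem_singleton_self f), by simpa using h⟩

/-- The germ `1`. -/
noncomputable def oneS (z : X) : L.Stalk 0 0 z := L.germ one0 ⟨∅, isSF_one0 ∅, by simp⟩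

/-- Symbols: exterior products of `(1,0)`-germs. -/
noncomputable def symS {z : X} : (p : ℕ) → (Fin p → L.Stalk 1 0 z) → L.Stalk p 0 z
  | 0, _ => L.oneS z
  | p + 1, ℓ => L.wdS p 0 z (ℓ 0) (symS p (fun i => ℓ i.succ))

/-- The germs of the differentials of the functions. -/
noncomputable def L1 (z : X) : Submodule ℝ (L.Stalk 1 0 z) :=
  Submodule.span ℝ {x | ∃ f, ∃ h : z ∈ L.dom f, x = L.dlS f h}

/-- The germs of constant forms of type `(p,0)`: the span of the symbols of the functions. -/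
noncomputable def Lp (p : ℕ) (z : X) : Submodule ℝ (L.Stalk p 0 z) :=
  Submodule.span ℝ {x | ∃ f : Fin p → Φ, ∃ h : ∀ i, z ∈ L.dom (f i),
    x = L.symS p (fun i => L.dlS (f i) (h i))}

/-! ### global sections -/

/-- `d''` on global sections. -/
noncomputable def ddG (p q : ℕ) : L.G p q →ₗ[ℝ] L.G p (q + 1) where
  toFun c := ⟨fun z => L.ddS p q z (c.1 z), fun z => by
    obtain ⟨θ, h⟩ := c.2 z
    refine ⟨dd θ, h.mono ?_⟩
    rintro z' ⟨h1, e1⟩
    refine ⟨SFat.dd L h1, ?_⟩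
    show L.ddS p q z' (c.1 z') = _
    rw [e1, ddS_germ]⟩
  map_add' c c' := by
    apply Subtype.ext; funext z; exact map_add _ _ _
  map_smul' r c := by
    apply Subtype.ext; funext z; exact (L.ddS p q z).map_smul r (c.1 z)

@[simp] lemma ddG_val (c : L.G p q) (z : X) : (L.ddG p q c).1 z = L.ddS p q z (c.1 z) := rfl

/-- Exterior product of global sections. -/
noncomputable def wdG (p q : ℕ) (a : L.G 1 0) (c : L.G p q) : L.G (p + 1) q :=
  ⟨fun z => L.wdS p q z (a.1 z) (c.1 z), fun z => by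
    obtain ⟨η, k⟩ := a.2 z
    obtain ⟨θ, h⟩ := c.2 z
    refine ⟨wdg1 η θ, (h.and k).mono ?_⟩
    rintro z' ⟨⟨h1, e1⟩, ⟨k1, f1⟩⟩
    refine ⟨SFat.wdg1 L k1 h1, ?_⟩
    show L.wdS p q z' (a.1 z') (c.1 z') = _
    rw [e1, f1, wdS_germ]⟩

/-- Product of a global section with a smooth function. -/
noncomputable def muG (p q : ℕ) (a : L.G 0 0) (c : L.G p q) : L.G p q :=
  ⟨fun z => L.muS p q z (a.1 z) (c.1 z), fun z => by
    obtain ⟨η, k⟩ := a.2 z
    obtain ⟨θ, h⟩ := c.2 z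
    refine ⟨mul0 η θ, (h.and k).mono ?_⟩
    rintro z' ⟨⟨h1, e1⟩, ⟨k1, f1⟩⟩
    refine ⟨SFat.mul0 L k1 h1, ?_⟩
    show L.muS p q z' (a.1 z') (c.1 z') = _
    rw [e1, f1, muS_germ]⟩

@[simp] lemma wdG_val (a : L.G 1 0) (c : L.G p q) (z : X) :
    (L.wdG p q a c).1 z = L.wdS p q z (a.1 z) (c.1 z) := rfl

@[simp] lemma muG_val (a : L.G 0 0) (c : L.G p q) (z : X) :
    (L.muG p q a c).1 z = L.muS p q z (a.1 z) (c.1 z) := rfl

/-- Smooth functions: locally a smooth function of finitely many `lf f`. -/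
def Smooth (g : X → ℝ) : Prop :=
  ∀ z, ∃ s : Finset Φ, (∀ f ∈ s, z ∈ L.dom f) ∧ ∃ a : (s → ℝ) → ℝ, ContDiff ℝ ∞ a ∧
    ∀ᶠ z' in 𝓝 z, g z' = a (L.trop s z')

/-- Cut-off functions exist. -/
def CutOff : Prop := ∀ K V : Set X, IsCompact K → IsOpen V → K ⊆ V → ∃ g : X → ℝ, L.Smooth g ∧
  (∀ᶠ z in 𝓝ˢ K, g z = 1) ∧ (∃ C, IsClosed C ∧ C ⊆ V ∧ ∀ z, z ∉ C → g z = 0)

/-- Local star-shapedness of the tropicalization at `z`. -/
def StarAt (z : X) : Prop := ∀ u : Finset Φ, (∀ f ∈ u, z ∈ L.dom f) → ∀ V ∈ 𝓝 z, ∃ V' ∈ 𝓝 z,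
  V' ⊆ V ∧ (∀ f ∈ u, V' ⊆ L.dom f) ∧ StarConvex ℝ (L.trop u z) (L.trop u '' V')

/-- Local polyhedrality (weak form): small neighbourhoods have images which are finite unions of
convex sets. -/
def FinConv (z : X) : Prop := ∀ u : Finset Φ, (∀ f ∈ u, z ∈ L.dom f) → ∀ V ∈ 𝓝 z, ∃ V' ∈ 𝓝 z,
  V' ⊆ V ∧ (∀ f ∈ u, V' ⊆ L.dom f) ∧
    ∃ S : Set (Set (u → ℝ)), S.Finite ∧ (∀ σ ∈ S, Convex ℝ σ) ∧ L.trop u '' V' = ⋃₀ S

end LogSpace

/-! ### pull back -/

namespace Mor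

variable {X Φ X' Φ' : Type} [TopologicalSpace X] [TopologicalSpace X'] {L : LogSpace X Φ}
  {L' : LogSpace X' Φ'} (m : Mor L L') {p q : ℕ}

theorem sfat {z : X} {θ : Raw Φ' p q} (h : L'.SFat (m.toFun z) θ) :
    L.SFat z (pullR m.ix θ) := by
  classical
  obtain ⟨s, hs, hs'⟩ := h
  refine ⟨s.image m.ix, hs.pullR, ?_⟩
  intro f hf
  obtain ⟨f', hf', rfl⟩ := Finset.mem_image.1 hf
  exact m.dom_sub _ _ (hs' f' hf')

/-- (A.Vpull) -/
theorem van {z : X} {θ : Raw Φ' p q} (h : L'.Van (m.toFun z) θ) :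
    L.Van z (pullR m.ix θ) :=
  A.mor_van m h

/-- Pull back of germs. -/
noncomputable def pullS (p q : ℕ) (z : X) :
    L'.Stalk p q (m.toFun z) →ₗ[ℝ] L.Stalk p q z :=
  L'.stLift (m.toFun z)
    ({ toFun := fun θ => L.germ (pullR m.ix θ.1) (m.sfat θ.2)
       map_add' := fun θ η => by
          rw [← L.germ_add]; exact L.germ_congr (pullR_add _ _ _) _ _
       map_smul' := fun c θ => by
          rw [RingHom.id_apply, ← L.germ_smul]; exact L.germ_congr (pullR_smul _ _ _) _ _ } :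
      L'.SFm p q (m.toFun z) →ₗ[ℝ] L.Stalk p q z)
    (fun _ hθ => (L.germ_eq_zero _).2 (m.van hθ))

lemma pullS_germ {z : X} {θ : Raw Φ' p q} (h : L'.SFat (m.toFun z) θ) :
    m.pullS p q z (L'.germ θ h) = L.germ (pullR m.ix θ) (m.sfat h) := rfl

/-- Pull back of global sections. -/
noncomputable def pullG (p q : ℕ) : L'.G p q →ₗ[ℝ] L.G p q where
  toFun c := ⟨fun z => m.pullS p q z (c.1 (m.toFun z)), fun z => by
    obtain ⟨θ, h⟩ := c.2 (m.toFun z)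
    refine ⟨pullR m.ix θ, (m.cont.continuousAt.eventually h).mono ?_⟩
    rintro z' ⟨h1, e1⟩
    refine ⟨m.sfat h1, ?_⟩
    show m.pullS p q z' (c.1 (m.toFun z')) = _
    rw [e1, pullS_germ]⟩
  map_add' c c' := by
    apply Subtype.ext; funext z; exact map_add _ _ _
  map_smul' r c := by
    apply Subtype.ext; funext z; exact (m.pullS p q z).map_smul r (c.1 (m.toFun z))

@[simp] lemma pullG_val (c : L'.G p q) (z : X) :
    (m.pullG p q c).1 z = m.pullS p q z (c.1 (m.toFun z)) := rfl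

end Mor

end Pool.Agent.TD
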