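import Pool.Agent.TD.Base

/-! Block A, part 0: definitions of the operations on raw forms. -/

open scoped ContDiff Topology

namespace Pool.Agent.TD

section Raw
variable {Φ Φ' : Type} {p q : ℕ}

/-- The closed `(1,0)`-form `d' lf f`. -/
def dlg (f : Φ) : Raw Φ 1 0 := fun _ _ v => v 0 f

/-- The `(0,0)`-form `1`. -/
def one0 : Raw Φ 0 0 := fun _ _ _ => 1

/-- Product with a `(0,0)`-form. -/
def mul0 (g : Raw Φ 0 0) (θ : Raw Φ p q) : Raw Φ p q := fun x w v => g x ![] ![] * θ x w v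

/-- Left exterior product with a `(1,0)`-form. -/
def wdg1 (η : Raw Φ 1 0) (θ : Raw Φ p q) : Raw Φ (p + 1) q := fun x w v =>
  ∑ j : Fin (p + 1), (-1 : ℝ) ^ (j : ℕ) * η x ![] ![v j] * θ x w (fun i => v (j.succAbove i))

/-- A form with constant coefficients. -/
def IsCst (θ : Raw Φ p q) : Prop := ∀ x x' w v, θ x w v = θ x' w v

/-- Pull back of raw forms by a map of index sets. -/
def pullR (φ : Φ' → Φ) (θ : Raw Φ' p q) : Raw Φ p q := fun x w v =>
  θ (x ∘ φ) (fun i => w i ∘ φ) (fun j => v j ∘ φ)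

end Raw

/-- A morphism of spaces with log functions. -/
structure Mor {X Φ X' Φ' : Type} [TopologicalSpace X] [TopologicalSpace X'] (L : LogSpace X Φ)
    (L' : LogSpace X' Φ') where
  toFun : X → X'
  cont : Continuous toFun
  ix : Φ' → Φ
  dom_sub : ∀ f' z, toFun z ∈ L'.dom f' → z ∈ L.dom (ix f')
  lf_eq : ∀ f' z, toFun z ∈ L'.dom f' → L.lf (ix f') z = L'.lf f' (toFun z)

end Pool.Agent.TD
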