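import Pool.Agent.TD.A0
import Pool.Agent.TD.A.Ext
import Pool.Agent.TD.A.Wdg
import Pool.Agent.TD.A.Comm
import Pool.Agent.TD.A.Alt
import Pool.Agent.TD.A.Vdd
import Pool.Agent.TD.A.Vw

/-! Block A, part 1: operations on forms (raw, stalks, global sections). -/

open scoped ContDiff Topology

namespace Pool.Agent.TD

section Raw
variable {Φ Φ' : Type} {p q : ℕ}

lemma wdg_eq (f : Φ) (θ : Raw Φ p q) : wdg f θ = wdg1 (dlg f) θ := rfl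

/-- (A.SFdd) -/
theorem IsSF.dd {s : Finset Φ} {θ : Raw Φ p q} (h : IsSF s θ) : IsSF s (dd θ) :=
  sf_dd h

/-- (A.SFwdg) -/
theorem IsSF.wdg1 {s : Finset Φ} {η : Raw Φ 1 0} {θ : Raw Φ p q} (k : IsSF s η) (h : IsSF s θ) :
    IsSF s (wdg1 η θ) :=
  A.sf_wdg1 k h

/-- (A.SFmul) -/
theorem IsSF.mul0 {s : Finset Φ} {g : Raw Φ 0 0} {θ : Raw Φ p q} (k : IsSF s g) (h : IsSF s θ) :
    IsSF s (mul0 g θ) :=
  A.sf_mul0 k h

/-- (A.SFpull) -/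
theorem IsSF.pullR [DecidableEq Φ] {s : Finset Φ'} {φ : Φ' → Φ} {θ : Raw Φ' p q} (h : IsSF s θ) :
    IsSF (s.image φ) (pullR φ θ) :=
  A.sf_pullR h

/-- (A.SFdlg) -/
theorem isSF_dlg {s : Finset Φ} {f : Φ} (h : f ∈ s) : IsSF s (dlg f) :=
  A.sf_dlg h

theorem isSF_one0 (s : Finset Φ) : IsSF s (one0 : Raw Φ 0 0) :=
  A.sf_one0 s

theorem dd_cst {θ : Raw Φ p q} (h : IsCst θ) : dd θ = 0 :=
  A.dd_cst h

theorem dd_wdg1 {s : Finset Φ} {η : Raw Φ 1 0} {θ : Raw Φ p q} (hη : IsCst η) (h : IsSF s θ) :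
    dd (wdg1 η θ) = wdg1 η (dd θ) :=
  A.dd_wdg1 hη h

/-- Leibniz rule with a `(0,0)`-form which is locally constant. -/
theorem dd_mul0 {s : Finset Φ} {g : Raw Φ 0 0} {θ : Raw Φ p q} (hg : IsCst g) (h : IsSF s θ) :
    dd (mul0 g θ) = mul0 g (dd θ) :=
  A.dd_mul0 hg h

theorem wdg1_anti {s : Finset Φ} {η η' : Raw Φ 1 0} {θ : Raw Φ p q} (_h : IsSF s θ) :
    wdg1 η (wdg1 η' θ) = - wdg1 η' (wdg1 η θ) :=
  A.wdg1_anti η η' θ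

theorem wdg1_self {s : Finset Φ} {η : Raw Φ 1 0} {θ : Raw Φ p q} (_h : IsSF s θ) :
    wdg1 η (wdg1 η θ) = 0 :=
  A.wdg1_self η θ

theorem pullR_wdg1 (φ : Φ' → Φ) (η : Raw Φ' 1 0) (θ : Raw Φ' p q) :
    pullR φ (wdg1 η θ) = wdg1 (pullR φ η) (pullR φ θ) :=
  A.pullR_wdg1 φ η θ

theorem pullR_mul0 (φ : Φ' → Φ) (g : Raw Φ' 0 0) (θ : Raw Φ' p q) :
    pullR φ (mul0 g θ) = mul0 (pullR φ g) (pullR φ θ) :=
  A.pullR_mul0 φ g θ

/-- (A.Vdd) -/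
theorem VanOn.dd {u : Finset Φ} {θ : Raw Φ p q} {P : Set (u → ℝ)} (hs : IsSF u θ)
    (h : VanOn u θ P) : VanOn u (dd θ) P :=
  A.van_dd hs h

theorem VanOn.wdg1_left {u : Finset Φ} {η : Raw Φ 1 0} {θ : Raw Φ p q} {P : Set (u → ℝ)}
    (h : VanOn u η P) : VanOn u (wdg1 η θ) P :=
  A.van_wdg1_left h

theorem VanOn.wdg1_right {u : Finset Φ} {η : Raw Φ 1 0} {θ : Raw Φ p q} {P : Set (u → ℝ)}
    (h : VanOn u θ P) : VanOn u (wdg1 η θ) P :=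
  A.van_wdg1_right h

theorem VanOn.mul0_left {u : Finset Φ} {g : Raw Φ 0 0} {θ : Raw Φ p q} {P : Set (u → ℝ)}
    (h : VanOn u g P) : VanOn u (mul0 g θ) P :=
  A.van_mul0_left h

theorem VanOn.mul0_right {u : Finset Φ} {g : Raw Φ 0 0} {θ : Raw Φ p q} {P : Set (u → ℝ)}
    (h : VanOn u θ P) : VanOn u (mul0 g θ) P :=
  A.van_mul0_right h

end Raw

namespace LogSpace

variable {X Φ : Type} [TopologicalSpace X] (L : LogSpace X Φ) {p q : ℕ} {z : X}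

theorem SFat.dd {θ : Raw Φ p q} (h : L.SFat z θ) : L.SFat z (dd θ) := by
  obtain ⟨s, hs, hs'⟩ := h
  exact ⟨s, hs.dd, hs'⟩

theorem Van.dd {θ : Raw Φ p q} (h : L.Van z θ) : L.Van z (dd θ) := by
  obtain ⟨u, hu, V, hV, hVd, hv⟩ := h
  exact ⟨u, hu.dd, V, hV, hVd, hv.dd hu⟩

theorem SFat.common {p' q' : ℕ} {θ : Raw Φ p q} {η : Raw Φ p' q'} (h : L.SFat z θ)
    (k : L.SFat z η) : ∃ s : Finset Φ, IsSF s θ ∧ IsSF s η ∧ ∀ f ∈ s, z ∈ L.dom f := by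
  classical
  obtain ⟨s, hs, hs'⟩ := h
  obtain ⟨t, ht, ht'⟩ := k
  refine ⟨s ∪ t, hs.mono Finset.subset_union_left, ht.mono Finset.subset_union_right, ?_⟩
  intro f hf
  rcases Finset.mem_union.1 hf with h | h
  exacts [hs' f h, ht' f h]

/-- The functions of `u` can be increased in `Van`, so that other forms are smooth in them too. -/
theorem Van.common {p' q' : ℕ} {θ : Raw Φ p q} {η : Raw Φ p' q'} (h : L.Van z θ)
    (k : L.SFat z η) : ∃ u : Finset Φ, IsSF u θ ∧ IsSF u η ∧ ∃ V ∈ 𝓝 z,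
      (∀ f ∈ u, V ⊆ L.dom f) ∧ VanOn u θ (L.trop u '' V) := by
  classical
  obtain ⟨s, hs, V, hV, hVs, hvs⟩ := h
  obtain ⟨t, ht, ht'⟩ := k
  have h1 : s ⊆ s ∪ t := Finset.subset_union_left
  have h2 : t ⊆ s ∪ t := Finset.subset_union_right
  have hW : ∀ᶠ z' in 𝓝 z, ∀ f ∈ t, z' ∈ L.dom f := by
    rw [Filter.eventually_all_finset]
    exact fun f hf => (L.isOpen_dom f).mem_nhds (ht' f hf)
  refine ⟨s ∪ t, hs.mono h1, ht.mono h2, V ∩ {z' | ∀ f ∈ t, z' ∈ L.dom f},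
    Filter.inter_mem hV hW, ?_, ?_⟩
  · intro f hf
    rcases Finset.mem_union.1 hf with h | h
    exacts [Set.inter_subset_left.trans (hVs f h), fun z' hz' => hz'.2 f h]
  · refine VanOn.refine h1 (P := L.trop s '' V) ?_ hvs
    rintro _ ⟨_, ⟨z', hz', rfl⟩, rfl⟩
    exact ⟨z', hz'.1, (L.rst_trop h1 z').symm⟩

theorem SFat.wdg1 {η : Raw Φ 1 0} {θ : Raw Φ p q} (k : L.SFat z η) (h : L.SFat z θ) :
    L.SFat z (wdg1 η θ) := by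
  obtain ⟨s, hs, ht, hd⟩ := SFat.common L h k
  exact ⟨s, IsSF.wdg1 ht hs, hd⟩

theorem SFat.mul0 {g : Raw Φ 0 0} {θ : Raw Φ p q} (k : L.SFat z g) (h : L.SFat z θ) :
    L.SFat z (mul0 g θ) := by
  obtain ⟨s, hs, ht, hd⟩ := SFat.common L h k
  exact ⟨s, IsSF.mul0 ht hs, hd⟩

theorem Van.wdg1_left {η : Raw Φ 1 0} {θ : Raw Φ p q} (k : L.Van z η) (h : L.SFat z θ) :
    L.Van z (TD.wdg1 η θ) := by
  obtain ⟨u, hu, hu', V, hV, hVd, hv⟩ := Van.common L k h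
  exact ⟨u, IsSF.wdg1 hu hu', V, hV, hVd, hv.wdg1_left⟩

theorem Van.wdg1_right {η : Raw Φ 1 0} {θ : Raw Φ p q} (k : L.SFat z η) (h : L.Van z θ) :
    L.Van z (TD.wdg1 η θ) := by
  obtain ⟨u, hu, hu', V, hV, hVd, hv⟩ := Van.common L h k
  exact ⟨u, IsSF.wdg1 hu' hu, V, hV, hVd, hv.wdg1_right⟩

theorem Van.mul0_left {g : Raw Φ 0 0} {θ : Raw Φ p q} (k : L.Van z g) (h : L.SFat z θ) :
    L.Van z (TD.mul0 g θ) := by
  obtain ⟨u, hu, hu', V, hV, hVd, hv⟩ := Van.common L k h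
  exact ⟨u, IsSF.mul0 hu hu', V, hV, hVd, hv.mul0_left⟩

theorem Van.mul0_right {g : Raw Φ 0 0} {θ : Raw Φ p q} (k : L.SFat z g) (h : L.Van z θ) :
    L.Van z (TD.mul0 g θ) := by
  obtain ⟨u, hu, hu', V, hV, hVd, hv⟩ := Van.common L h k
  exact ⟨u, IsSF.mul0 hu' hu, V, hV, hVd, hv.mul0_right⟩

end LogSpace

end Pool.Agent.TD
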