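import Pool.Agent.TD.Defs

/-! Stalks and global sections. -/

open scoped ContDiff Topology

namespace Pool.Agent.TD

section IsSF
variable {Φ : Type} {p q : ℕ}

/-- restriction `ℝ^t → ℝ^s` for `s ⊆ t` -/
noncomputable def rst {s t : Finset Φ} (h : s ⊆ t) : (t → ℝ) →L[ℝ] (s → ℝ) :=
  ContinuousLinearMap.pi fun f => ContinuousLinearMap.proj (⟨f.1, h f.2⟩ : t)

@[simp] lemma rst_apply {s t : Finset Φ} (h : s ⊆ t) (x : t → ℝ) (f : s) :
    rst h x f = x ⟨f.1, h f.2⟩ := rfl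

lemma rst_rs {s t : Finset Φ} (h : s ⊆ t) (x : Φ → ℝ) : rst h (rs t x) = rs s x := by
  ext f; rfl

lemma rs_add (s : Finset Φ) (x y : Φ → ℝ) : rs s (x + y) = rs s x + rs s y := rfl
lemma rs_smul (s : Finset Φ) (c : ℝ) (x : Φ → ℝ) : rs s (c • x) = c • rs s x := rfl
lemma rs_zero (s : Finset Φ) : rs s (0 : Φ → ℝ) = 0 := rfl

/-- Every vector of `ℝ^s` extends to `ℝ^Φ`. -/
lemma rs_surjective (s : Finset Φ) : Function.Surjective (rs s) := by
  classical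
  intro y
  refine ⟨fun f => if h : f ∈ s then y ⟨f, h⟩ else 0, ?_⟩
  ext f
  simp [rs]

/-- Pull back of a superform by a continuous linear map. -/
noncomputable def spull {V W : Type} [NormedAddCommGroup V] [NormedSpace ℝ V]
    [NormedAddCommGroup W] [NormedSpace ℝ W] (r : W →L[ℝ] V) (α : SForm V p q) : SForm W p q :=
  fun x => (ContinuousAlternatingMap.compContinuousLinearMapCLM r
      (F := ℝ) (ι := Fin p)).compContinuousAlternatingMap
    ((α (r x)).compContinuousLinearMap r)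

lemma spull_apply {V W : Type} [NormedAddCommGroup V] [NormedSpace ℝ V]
    [NormedAddCommGroup W] [NormedSpace ℝ W] (r : W →L[ℝ] V) (α : SForm V p q) (x : W)
    (w : Fin q → W) (v : Fin p → W) :
    spull r α x w v = α (r x) (fun i => r (w i)) (fun j => r (v j)) := rfl

/-- Pull back on the coefficients. -/
noncomputable def cpull {V W : Type} [NormedAddCommGroup V] [NormedSpace ℝ V]
    [NormedAddCommGroup W] [NormedSpace ℝ W] (p q : ℕ) (r : W →L[ℝ] V) :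
    (W [⋀^Fin q]→L[ℝ] (V [⋀^Fin p]→L[ℝ] ℝ)) →L[ℝ] (W [⋀^Fin q]→L[ℝ] (W [⋀^Fin p]→L[ℝ] ℝ)) :=
  ContinuousLinearMap.compContinuousAlternatingMapCLM ℝ W
    (V [⋀^Fin p]→L[ℝ] ℝ) (W [⋀^Fin p]→L[ℝ] ℝ) (Fin q)
    (ContinuousAlternatingMap.compContinuousLinearMapCLM r (F := ℝ) (ι := Fin p))

lemma cpull_contDiff {V W : Type} [NormedAddCommGroup V] [NormedSpace ℝ V]
    [NormedAddCommGroup W] [NormedSpace ℝ W] (p q : ℕ) (r : W →L[ℝ] V) :
    ContDiff ℝ ∞ (fun A => cpull p q r A) := by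
  fun_prop

lemma spull_contDiff {V W : Type} [NormedAddCommGroup V] [NormedSpace ℝ V]
    [NormedAddCommGroup W] [NormedSpace ℝ W] (r : W →L[ℝ] V) {α : SForm V p q}
    (h : ContDiff ℝ ∞ α) : ContDiff ℝ ∞ (spull r α) := by
  have h1 : ContDiff ℝ ∞ (fun x : W => α (r x)) := h.comp r.contDiff
  have h2 : ContDiff ℝ ∞ (fun x : W => (ContinuousAlternatingMap.compContinuousLinearMapCLM r
      (F := (V [⋀^Fin p]→L[ℝ] ℝ)) (ι := Fin q)) (α (r x))) :=
    (ContinuousLinearMap.contDiff _).comp h1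
  exact (cpull_contDiff p q r).comp h2

lemma IsSF.mono {s t : Finset Φ} (h : s ⊆ t) {θ : Raw Φ p q} (hθ : IsSF s θ) : IsSF t θ := by
  obtain ⟨α, hα, hθ⟩ := hθ
  refine ⟨spull (rst h) α, spull_contDiff _ hα, fun x w v => ?_⟩
  rw [hθ, spull_apply]
  simp only [rst_rs]

lemma IsSF.zero (s : Finset Φ) : IsSF s (0 : Raw Φ p q) :=
  ⟨0, contDiff_const, fun _ _ _ => rfl⟩

lemma IsSF.add {s : Finset Φ} {θ η : Raw Φ p q} (hθ : IsSF s θ) (hη : IsSF s η) :
    IsSF s (θ + η) := by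
  obtain ⟨α, hα, hθ⟩ := hθ
  obtain ⟨β, hβ, hη⟩ := hη
  refine ⟨α + β, hα.add hβ, fun x w v => ?_⟩
  show θ x w v + η x w v = _
  rw [hθ, hη]; rfl

lemma IsSF.smul {s : Finset Φ} (c : ℝ) {θ : Raw Φ p q} (hθ : IsSF s θ) : IsSF s (c • θ) := by
  obtain ⟨α, hα, hθ⟩ := hθ
  refine ⟨c • α, hα.const_smul c, fun x w v => ?_⟩
  show c * θ x w v = _
  rw [hθ]; rfl

lemma VanOn.mono {u : Finset Φ} {θ : Raw Φ p q} {P Q : Set (u → ℝ)} (h : VanOn u θ Q)
    (hPQ : P ⊆ Q) : VanOn u θ P := fun σ hσ hσP x w v => h σ hσ (hσP.trans hPQ) x w v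

lemma vectorSpan_map_mem {V W : Type} [AddCommGroup V] [Module ℝ V] [AddCommGroup W] [Module ℝ W]
    (r : V →ₗ[ℝ] W) {σ : Set V} {w : V} (hw : w ∈ vectorSpan ℝ σ) :
    r w ∈ vectorSpan ℝ (r '' σ) := by
  have h := AffineMap.map_vectorSpan (k := ℝ) (s := σ) r.toAffineMap
  have h' : vectorSpan ℝ (r '' σ) = Submodule.map r (vectorSpan ℝ σ) := by
    simpa using h.symm
  rw [h']
  exact Submodule.mem_map_of_mem hw

lemma VanOn.refine {s u : Finset Φ} (h : s ⊆ u) {θ : Raw Φ p q} {P : Set (s → ℝ)}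
    {Q : Set (u → ℝ)} (hPQ : rst h '' Q ⊆ P) (hV : VanOn s θ P) : VanOn u θ Q := by
  intro σ hσ hσQ x w v hx hw hv
  have himg : Convex ℝ (rst h '' σ) := hσ.linear_image (rst h).toLinearMap
  refine hV (rst h '' σ) himg ((Set.image_mono hσQ).trans hPQ) x w v ?_ ?_ ?_
  · exact ⟨rs u x, hx, rst_rs h x⟩
  · intro i
    have := vectorSpan_map_mem (rst h).toLinearMap (hw i)
    rwa [show (rst h).toLinearMap (rs u (w i)) = rs s (w i) from rst_rs h (w i)] at this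
  · intro j
    have := vectorSpan_map_mem (rst h).toLinearMap (hv j)
    rwa [show (rst h).toLinearMap (rs u (v j)) = rs s (v j) from rst_rs h (v j)] at this

end IsSF

namespace LogSpace

variable {X Φ : Type} [TopologicalSpace X] (L : LogSpace X Φ) {p q : ℕ}

lemma rst_trop {s u : Finset Φ} (h : s ⊆ u) (z : X) : rst h (L.trop u z) = L.trop s z := by
  ext f; rfl

/-- The raw forms which define germs at `z`. -/
def SFm (p q : ℕ) (z : X) : Submodule ℝ (Raw Φ p q) where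
  carrier := {θ | L.SFat z θ}
  zero_mem' := ⟨∅, IsSF.zero _, by simp⟩
  add_mem' := by
    classical
    rintro θ η ⟨s, hs, hs'⟩ ⟨t, ht, ht'⟩
    refine ⟨s ∪ t, (hs.mono Finset.subset_union_left).add (ht.mono Finset.subset_union_right), ?_⟩
    intro f hf
    rcases Finset.mem_union.1 hf with h | h
    exacts [hs' f h, ht' f h]
  smul_mem' := by
    rintro c θ ⟨s, hs, hs'⟩
    exact ⟨s, hs.smul c, hs'⟩

lemma mem_SFm {z : X} {θ : Raw Φ p q} : θ ∈ L.SFm p q z ↔ L.SFat z θ := Iff.rfl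

lemma Van.add {z : X} {θ η : Raw Φ p q} (hθ : L.Van z θ) (hη : L.Van z η) : L.Van z (θ + η) := by
  classical
  obtain ⟨s, hs, V, hV, hVs, hvs⟩ := hθ
  obtain ⟨t, ht, W, hW, hWt, hwt⟩ := hη
  have h1 : s ⊆ s ∪ t := Finset.subset_union_left
  have h2 : t ⊆ s ∪ t := Finset.subset_union_right
  refine ⟨s ∪ t, (hs.mono h1).add (ht.mono h2), V ∩ W, Filter.inter_mem hV hW, ?_, ?_⟩
  · intro f hf
    rcases Finset.mem_union.1 hf with h | h
    exacts [Set.inter_subset_left.trans (hVs f h), Set.inter_subset_right.trans (hWt f h)]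
  · have k1 : VanOn (s ∪ t) θ (L.trop (s ∪ t) '' (V ∩ W)) := by
      refine VanOn.refine h1 (P := L.trop s '' V) ?_ hvs
      rintro _ ⟨_, ⟨z', hz', rfl⟩, rfl⟩
      exact ⟨z', hz'.1, (L.rst_trop h1 z').symm⟩
    have k2 : VanOn (s ∪ t) η (L.trop (s ∪ t) '' (V ∩ W)) := by
      refine VanOn.refine h2 (P := L.trop t '' W) ?_ hwt
      rintro _ ⟨_, ⟨z', hz', rfl⟩, rfl⟩
      exact ⟨z', hz'.2, (L.rst_trop h2 z').symm⟩
    intro σ hσ hσP x w v hx hw hv
    show θ x w v + η x w v = 0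
    rw [k1 σ hσ hσP x w v hx hw hv, k2 σ hσ hσP x w v hx hw hv, add_zero]

/-- The raw forms which vanish at `z`. -/
def VanM (p q : ℕ) (z : X) : Submodule ℝ (Raw Φ p q) where
  carrier := {θ | L.Van z θ}
  zero_mem' := ⟨∅, IsSF.zero _, Set.univ, Filter.univ_mem, by simp, fun _ _ _ _ _ _ _ _ _ => rfl⟩
  add_mem' := fun h1 h2 => Van.add L h1 h2
  smul_mem' := by
    rintro c θ ⟨s, hs, V, hV, hVs, hvs⟩
    refine ⟨s, hs.smul c, V, hV, hVs, ?_⟩
    intro σ hσ hσP x w v hx hw hv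
    show c * θ x w v = 0
    rw [hvs σ hσ hσP x w v hx hw hv, mul_zero]

lemma mem_VanM {z : X} {θ : Raw Φ p q} : θ ∈ L.VanM p q z ↔ L.Van z θ := Iff.rfl

lemma Van.sfat {z : X} {θ : Raw Φ p q} (h : L.Van z θ) : L.SFat z θ := by
  obtain ⟨s, hs, V, hV, hVs, -⟩ := h
  exact ⟨s, hs, fun f hf => hVs f hf (mem_of_mem_nhds hV)⟩

/-- The stalk at `z` of the sheaf of forms of type `(p,q)`. -/
def Stalk (p q : ℕ) (z : X) : Type :=
  (L.SFm p q z) ⧸ (L.VanM p q z).comap (L.SFm p q z).subtype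

noncomputable instance (p q : ℕ) (z : X) : AddCommGroup (L.Stalk p q z) :=
  inferInstanceAs (AddCommGroup ((L.SFm p q z) ⧸ (L.VanM p q z).comap (L.SFm p q z).subtype))

noncomputable instance (p q : ℕ) (z : X) : Module ℝ (L.Stalk p q z) :=
  inferInstanceAs (Module ℝ ((L.SFm p q z) ⧸ (L.VanM p q z).comap (L.SFm p q z).subtype))

/-- The quotient map. -/
noncomputable def qk (p q : ℕ) (z : X) : L.SFm p q z →ₗ[ℝ] L.Stalk p q z :=
  ((L.VanM p q z).comap (L.SFm p q z).subtype).mkQ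

/-- The germ at `z` of a raw form. -/
noncomputable def germ {z : X} (θ : Raw Φ p q) (h : L.SFat z θ) : L.Stalk p q z :=
  L.qk p q z ⟨θ, h⟩

variable {L} in
theorem SFat.add {z : X} {θ η : Raw Φ p q} (h : L.SFat z θ) (k : L.SFat z η) :
    L.SFat z (θ + η) := (L.SFm p q z).add_mem h k

variable {L} in
theorem SFat.sub {z : X} {θ η : Raw Φ p q} (h : L.SFat z θ) (k : L.SFat z η) :
    L.SFat z (θ - η) := (L.SFm p q z).sub_mem h k

variable {L} in
theorem SFat.smul {z : X} (c : ℝ) {θ : Raw Φ p q} (h : L.SFat z θ) :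
    L.SFat z (c • θ) := (L.SFm p q z).smul_mem c h

theorem SFat.zero {z : X} : L.SFat z (0 : Raw Φ p q) := (L.SFm p q z).zero_mem

lemma germ_add {z : X} {θ η : Raw Φ p q} (h : L.SFat z θ) (k : L.SFat z η) :
    L.germ (θ + η) (h.add k) = L.germ θ h + L.germ η k :=
  (L.qk p q z).map_add ⟨θ, h⟩ ⟨η, k⟩

lemma germ_smul {z : X} (c : ℝ) {θ : Raw Φ p q} (h : L.SFat z θ) :
    L.germ (c • θ) (h.smul c) = c • L.germ θ h :=
  (L.qk p q z).map_smul c ⟨θ, h⟩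

lemma germ_sub {z : X} {θ η : Raw Φ p q} (h : L.SFat z θ) (k : L.SFat z η) :
    L.germ (θ - η) (h.sub k) = L.germ θ h - L.germ η k :=
  (L.qk p q z).map_sub ⟨θ, h⟩ ⟨η, k⟩

lemma germ_zero {z : X} : L.germ (z := z) (0 : Raw Φ p q) (SFat.zero L) = 0 :=
  (L.qk p q z).map_zero

lemma germ_eq_zero {z : X} {θ : Raw Φ p q} (h : L.SFat z θ) : L.germ θ h = 0 ↔ L.Van z θ := by
  exact (Submodule.Quotient.mk_eq_zero ((L.VanM p q z).comap (L.SFm p q z).subtype)).trans Iff.rfl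

lemma germ_eq_iff {z : X} {θ η : Raw Φ p q} (h : L.SFat z θ) (k : L.SFat z η) :
    L.germ θ h = L.germ η k ↔ L.Van z (θ - η) := by
  rw [← sub_eq_zero, ← L.germ_sub h k, germ_eq_zero]

lemma germ_congr {z : X} {θ η : Raw Φ p q} (e : θ = η) (h : L.SFat z θ) (k : L.SFat z η) :
    L.germ θ h = L.germ η k := by
  subst e; rfl

/-- Linear maps from the stalk. -/
noncomputable def stLift {p q : ℕ} (z : X) {M : Type} [AddCommGroup M] [Module ℝ M]
    (F : L.SFm p q z →ₗ[ℝ] M) (h : ∀ θ : L.SFm p q z, L.Van z θ.1 → F θ = 0) :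
    L.Stalk p q z →ₗ[ℝ] M :=
  ((L.VanM p q z).comap (L.SFm p q z).subtype).liftQ F (fun θ hθ => h θ hθ)

lemma stLift_germ {p q : ℕ} {z : X} {M : Type} [AddCommGroup M] [Module ℝ M]
    (F : L.SFm p q z →ₗ[ℝ] M) (h : ∀ θ : L.SFm p q z, L.Van z θ.1 → F θ = 0) {θ : Raw Φ p q}
    (k : L.SFat z θ) : L.stLift z F h (L.germ θ k) = F ⟨θ, k⟩ := rfl

lemma exists_germ {z : X} (c : L.Stalk p q z) : ∃ θ, ∃ h : L.SFat z θ, L.germ θ h = c := by
  obtain ⟨⟨θ, h⟩, rfl⟩ := Submodule.Quotient.mk_surjective _ c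
  exact ⟨θ, h, rfl⟩

/-- A germ condition holds in a neighbourhood. -/
lemma SFat.nhds {z : X} {θ : Raw Φ p q} (h : L.SFat z θ) : ∀ᶠ z' in 𝓝 z, L.SFat z' θ := by
  obtain ⟨s, hs, hs'⟩ := h
  have : ∀ᶠ z' in 𝓝 z, ∀ f ∈ s, z' ∈ L.dom f := by
    rw [Filter.eventually_all_finset]
    exact fun f hf => (L.isOpen_dom f).mem_nhds (hs' f hf)
  exact this.mono fun z' hz' => ⟨s, hs, hz'⟩

lemma Van.nhds {z : X} {θ : Raw Φ p q} (h : L.Van z θ) : ∀ᶠ z' in 𝓝 z, L.Van z' θ := by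
  obtain ⟨s, hs, V, hV, hVs, hvs⟩ := h
  have := eventually_mem_nhds_iff.2 hV
  exact this.mono fun z' hz' => ⟨s, hs, V, hz', hVs, hvs⟩

/-- Global sections: families of germs which are locally given by one raw form. -/
def G (p q : ℕ) : Submodule ℝ (∀ z, L.Stalk p q z) where
  carrier := {c | ∀ z, ∃ θ : Raw Φ p q, ∀ᶠ z' in 𝓝 z, ∃ h : L.SFat z' θ, c z' = L.germ θ h}
  zero_mem' := fun z => ⟨0, Filter.Eventually.of_forall fun z' =>
    ⟨SFat.zero L, L.germ_zero.symm⟩⟩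
  add_mem' := by
    intro c c' hc hc' z
    obtain ⟨θ, h⟩ := hc z
    obtain ⟨η, k⟩ := hc' z
    refine ⟨θ + η, (h.and k).mono ?_⟩
    rintro z' ⟨⟨h1, e1⟩, ⟨h2, e2⟩⟩
    refine ⟨h1.add h2, ?_⟩
    show c z' + c' z' = _
    rw [e1, e2, L.germ_add]
  smul_mem' := by
    intro r c hc z
    obtain ⟨θ, h⟩ := hc z
    refine ⟨r • θ, h.mono ?_⟩
    rintro z' ⟨h1, e1⟩
    refine ⟨h1.smul r, ?_⟩
    show r • c z' = _
    rw [e1, L.germ_smul]

/-- The support of a section. -/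
def supp (c : L.G p q) : Set X := {z | c.1 z ≠ 0}

end LogSpace

end Pool.Agent.TD
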